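import Mathlib

set_option autoImplicit false

/-! # Gaussians times entire functions on `ℂ^m`: mean value and Fourier transform -/

namespace Pool.Agent.H474.FK

open MeasureTheory Filter Topology Set Complex
open scoped ComplexConjugate

/-- `ℂ^m`, as a real space `ℝ^(2m)`, with Lebesgue measure -/
abbrev Cm (m : ℕ) := Fin m → ℂ

variable {m : ℕ}

/-- `|z|²` -/
noncomputable def nsq (z : Cm m) : ℝ := ∑ j, ‖z j‖ ^ 2

/-- the real inner product `Re ∑ z_j conj(x_j)` of `ℝ^(2m)` -/
noncomputable def ip (z x : Cm m) : ℝ := ∑ j, (z j * conj (x j)).re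

lemma nsq_nonneg (z : Cm m) : 0 ≤ nsq z := Finset.sum_nonneg fun _ _ => sq_nonneg _

lemma nsq_smul (u : ℂ) (z : Cm m) : nsq (u • z) = ‖u‖ ^ 2 * nsq z := by
  unfold nsq
  rw [Finset.mul_sum]
  refine Finset.sum_congr rfl fun j _ => ?_
  rw [Pi.smul_apply, smul_eq_mul, norm_mul, mul_pow]

lemma nsq_cont : Continuous (nsq : Cm m → ℝ) := by
  unfold nsq
  fun_prop

lemma ip_cont : Continuous (fun p : Cm m × Cm m => ip p.1 p.2) := by
  unfold ip
  fun_prop

lemma rot_preserving {u : ℂ} (hu : ‖u‖ = 1) : MeasurePreserving (fun z : Cm m => u • z) volume volume := by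
  have h1 : MeasurePreserving (fun w : ℂ => u * w) volume volume := by
    have h2 : MeasurePreserving (rotation (⟨u, by simpa [Submonoid.unitSphere] using hu⟩ : Circle)) (volume : Measure ℂ) volume :=
      (rotation _).measurePreserving
    exact h2
  have h3 := volume_preserving_pi (fun _ : Fin m => h1)
  exact h3

theorem mean_value {H : Cm m → ℂ} (hH : Differentiable ℂ H) {φ : Cm m → ℂ} (hφc : Continuous φ)
    (hφ : ∀ (u : ℂ) (z : Cm m), ‖u‖ = 1 → φ (u • z) = φ z) (hint : Integrable (fun z => H z * φ z)) :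
    ∫ z, H z * φ z = H 0 * ∫ z, φ z := by
  obtain ⟨g, hg⟩ : ∃ g : Cm m → ℂ, g = fun z => H z * φ z := ⟨_, rfl⟩
  have hgc : Continuous g := by rw [hg]; exact hH.continuous.mul hφc
  have hgi : Integrable g := by rw [hg]; exact hint
  have hun : ∀ θ : ℝ, ‖circleMap 0 1 θ‖ = 1 := fun θ => by simp
  have hcm : ∀ θ : ℝ, MeasurePreserving (fun z : Cm m => circleMap 0 1 θ • z) volume volume := fun θ => rot_preserving (hun θ)
  have hemb : ∀ θ : ℝ, MeasurableEmbedding (fun z : Cm m => circleMap 0 1 θ • z) := fun θ =>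
    (Homeomorph.smulOfNeZero (α := Cm m) (circleMap 0 1 θ) (by rw [← norm_ne_zero_iff, hun]; norm_num)).measurableEmbedding
  have h1 : ∀ θ : ℝ, ∫ z, g (circleMap 0 1 θ • z) = ∫ z, g z := fun θ => (hcm θ).integral_comp (hemb θ) g
  have hcc : Continuous (Function.uncurry fun (θ : ℝ) (z : Cm m) => g (circleMap 0 1 θ • z)) := by
    have h0 : Continuous fun p : ℝ × Cm m => circleMap 0 1 p.1 • p.2 :=
      ((continuous_circleMap 0 1).comp continuous_fst).smul continuous_snd
    exact hgc.comp h0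
  have hprod : Integrable (Function.uncurry fun (θ : ℝ) (z : Cm m) => g (circleMap 0 1 θ • z))
      ((volume.restrict (Ioc 0 (2 * Real.pi))).prod volume) := by
    rw [integrable_prod_iff hcc.aestronglyMeasurable]
    refine ⟨Eventually.of_forall fun θ => ?_, ?_⟩
    · exact (hcm θ).integrable_comp_of_integrable hgi
    · have h2 : (fun θ : ℝ => ∫ z, ‖Function.uncurry (fun (θ : ℝ) (z : Cm m) => g (circleMap 0 1 θ • z)) (θ, z)‖) =
          fun _ => ∫ z, ‖g z‖ := by
        funext θ
        exact (hcm θ).integral_comp (hemb θ) (fun z => ‖g z‖)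
      rw [h2]
      exact integrable_const _
  have h2 := integral_integral_swap hprod
  have h3 : ∫ θ in Ioc 0 (2 * Real.pi), ∫ z, g (circleMap 0 1 θ • z) = (2 * Real.pi : ℝ) • ∫ z, g z := by
    simp_rw [h1]
    rw [setIntegral_const]
    congr 1
    simp [Real.pi_pos.le]
  have h4 : ∀ z, ∫ θ in Ioc 0 (2 * Real.pi), g (circleMap 0 1 θ • z) = (2 * Real.pi : ℝ) • (H 0 * φ z) := by
    intro z
    have hd : Differentiable ℂ (fun s : ℂ => H (s • z)) :=
      hH.comp (differentiable_id.smul_const z)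
    have h5 := DiffContOnCl.circleAverage (f := fun s : ℂ => H (s • z)) (c := 0) (R := 1) hd.diffContOnCl
    rw [Real.circleAverage_def, zero_smul] at h5
    have h6 : ∫ θ in (0 : ℝ)..2 * Real.pi, H (circleMap 0 1 θ • z) = (2 * Real.pi : ℝ) • H 0 := by
      rw [← h5, smul_smul, mul_inv_cancel₀ (by positivity), one_smul]
    rw [← intervalIntegral.integral_of_le (by positivity)]
    have h7 : ∀ θ : ℝ, g (circleMap 0 1 θ • z) = H (circleMap 0 1 θ • z) * φ z := by
      intro θ
      rw [hg]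
      show H (circleMap 0 1 θ • z) * φ (circleMap 0 1 θ • z) = _
      rw [hφ _ _ (hun θ)]
    simp_rw [h7]
    rw [intervalIntegral.integral_mul_const, h6, smul_mul_assoc]
  have h8 : (2 * Real.pi : ℝ) • ∫ z, g z = (2 * Real.pi : ℝ) • (H 0 * ∫ z, φ z) := by
    rw [← h3, h2]
    simp_rw [h4]
    rw [integral_smul, integral_const_mul]
  have h9 := smul_right_injective ℂ (show (2 * Real.pi : ℝ) ≠ 0 by positivity) h8
  rw [hg] at h9
  exact h9

/-- the Gaussian integral on `ℂ^m` -/
theorem gauss {b : ℂ} (hb : 0 < b.re) : ∫ z : Cm m, cexp (-(Real.pi * b * nsq z)) = (b⁻¹) ^ m := by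
  have h1 : ∀ z : Cm m, cexp (-(Real.pi * b * nsq z)) = ∏ j, cexp (-(Real.pi * b) * ‖z j‖ ^ 2) := by
    intro z
    rw [← Complex.exp_sum]
    congr 1
    unfold nsq
    push_cast
    rw [Finset.mul_sum, ← Finset.sum_neg_distrib]
    refine Finset.sum_congr rfl fun j _ => ?_
    ring
  simp_rw [h1]
  rw [integral_fintype_prod_volume_eq_pow (fun w : ℂ => cexp (-(Real.pi * b) * ‖w‖ ^ 2))]
  have h2 : ∫ w : ℂ, cexp (-(Real.pi * b) * ‖w‖ ^ 2) = b⁻¹ := by
    have h3 := GaussianFourier.integral_cexp_neg_mul_sq_norm (V := ℂ) (b := Real.pi * b) (by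
      rw [Complex.re_ofReal_mul]
      exact mul_pos Real.pi_pos hb)
    rw [h3, Complex.finrank_real_complex]
    have hb0 : b ≠ 0 := by
      intro h
      rw [h] at hb
      simp at hb
    have : (Real.pi : ℂ) ≠ 0 := by exact_mod_cast Real.pi_ne_zero
    norm_num
    field_simp
  rw [h2]
  simp

end Pool.Agent.H474.FK
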