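import Pool.Agent.H474.FK.Ft

set_option autoImplicit false

/-! # The extension operator of the paraboloid on Fock functions -/

namespace Pool.Agent.H474.FK

open MeasureTheory Filter Topology Set Complex
open scoped ComplexConjugate ENNReal

variable {m : ℕ}

/-- the extension operator of the paraboloid over `ℂ^m = ℝ^(2m)` -/
noncomputable def ext (f : Cm m → ℂ) (y : Cm m × ℝ) : ℂ :=
  ∫ z, f z * cexp (2 * Real.pi * I * (ip z y.1 + y.2 * nsq z))

/-- an entire function times a Gaussian -/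
noncomputable def fock (κ : ℂ) (F : Cm m → ℂ) (z : Cm m) : ℂ := F z * cexp (-(κ * nsq z))

/-- the parameter at time `t` -/
noncomputable def bb (κ : ℂ) (t : ℝ) : ℂ := κ / Real.pi - 2 * I * t

lemma bb_re (κ : ℂ) (t : ℝ) : (bb κ t).re = κ.re / Real.pi := by
  unfold bb
  rw [Complex.sub_re, Complex.div_ofReal_re]
  simp

lemma bb_pos {κ : ℂ} (hκ : 0 < κ.re) (t : ℝ) : 0 < (bb κ t).re := by
  rw [bb_re]
  exact div_pos hκ Real.pi_pos

lemma fock_norm (κ : ℂ) (F : Cm m → ℂ) (z : Cm m) : ‖fock κ F z‖ = ‖F z‖ * Real.exp (-(κ.re * nsq z)) := by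
  unfold fock
  rw [norm_mul, Complex.norm_exp]
  congr 2
  rw [Complex.neg_re, Complex.re_mul_ofReal]

lemma fock_cont {κ : ℂ} {F : Cm m → ℂ} (hF : Differentiable ℂ F) : Continuous (fock κ F) := by
  unfold fock
  refine hF.continuous.mul (Complex.continuous_exp.comp ?_)
  have := nsq_cont (m := m)
  fun_prop

theorem ext_fock {κ : ℂ} (hκ : 0 < κ.re) {F : Cm m → ℂ} (hF : Differentiable ℂ F) (hi : Integrable (fock κ F)) (y : Cm m × ℝ) :
    ‖ext (fock κ F) y‖ = (‖bb κ y.2‖⁻¹) ^ m * ‖fock κ F ((I / bb κ y.2) • y.1)‖ := by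
  obtain ⟨x, t⟩ := y
  obtain ⟨b, hb⟩ : ∃ b : ℂ, b = bb κ t := ⟨_, rfl⟩
  have hbp : 0 < b.re := by rw [hb]; exact bb_pos hκ t
  have hb0 := b_ne hbp
  have hpi : (Real.pi : ℂ) ≠ 0 := by exact_mod_cast Real.pi_ne_zero
  have hre : Real.pi * b.re = κ.re := by
    rw [hb, bb_re]
    field_simp
  have e1 : ∀ z : Cm m, fock κ F z * cexp (2 * Real.pi * I * (ip z x + t * nsq z)) =
      F z * cexp (-(Real.pi * b * nsq z)) * cexp (2 * Real.pi * I * ip z x) := by
    intro z
    unfold fock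
    rw [mul_assoc (F z), mul_assoc (F z), ← Complex.exp_add, ← Complex.exp_add]
    congr 2
    rw [hb]
    unfold bb
    field_simp
    ring
  have hi2 : Integrable fun z => F z * cexp (-(Real.pi * b * nsq z)) := by
    have hc : Continuous fun z : Cm m => F z * cexp (-(Real.pi * b * nsq z)) := by
      refine hF.continuous.mul (Complex.continuous_exp.comp ?_)
      have := nsq_cont (m := m)
      fun_prop
    refine hi.norm.mono' hc.aestronglyMeasurable (Eventually.of_forall fun z => le_of_eq ?_)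
    rw [fock_norm, norm_mul, Complex.norm_exp]
    congr 2
    rw [Complex.neg_re, Complex.re_mul_ofReal, Complex.re_ofReal_mul, hre]
  show ‖∫ z, fock κ F z * cexp (2 * Real.pi * I * (ip z x + t * nsq z))‖ = _
  simp_rw [e1]
  rw [ft hF hbp hi2 x, norm_mul, norm_pow, norm_inv]
  show _ = (‖bb κ t‖⁻¹) ^ m * ‖fock κ F ((I / bb κ t) • x)‖
  rw [← hb, fock_norm, norm_mul, Complex.norm_exp]
  congr 3
  rw [nsq_smul, norm_div, Complex.norm_I, Complex.neg_re]
  have h2 : ((Real.pi * nsq x / b : ℂ)).re = Real.pi * nsq x * b.re / ‖b‖ ^ 2 := by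
    rw [← Complex.ofReal_mul, Complex.div_re, Complex.ofReal_re, Complex.ofReal_im, Complex.normSq_eq_norm_sq]
    ring
  rw [h2, ← hre]
  ring

/-- scaling of the Lebesgue integral -/
lemma lint_smul {E : Type*} [NormedAddCommGroup E] [NormedSpace ℝ E] [MeasurableSpace E] [BorelSpace E] [FiniteDimensional ℝ E]
    (μ : Measure E) [μ.IsAddHaarMeasure] {r : ℝ} (hr : r ≠ 0) {g : E → ℝ≥0∞} (hg : Measurable g) :
    ∫⁻ x, g (r • x) ∂μ = ENNReal.ofReal |(r ^ Module.finrank ℝ E)⁻¹| * ∫⁻ x, g x ∂μ := by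
  have h1 := Measure.map_addHaar_smul μ hr
  rw [← lintegral_map hg (measurable_const_smul r), h1, lintegral_smul_measure]
  rfl

lemma lint_csmul {c : ℂ} (hc : c ≠ 0) {g : Cm m → ℝ≥0∞} (hg : Measurable g) :
    ∫⁻ x, g (c • x) = ENNReal.ofReal ((‖c‖⁻¹) ^ (2 * m)) * ∫⁻ x, g x := by
  have hc0 : 0 < ‖c‖ := norm_pos_iff.2 hc
  obtain ⟨u, hu⟩ : ∃ u : ℂ, u = c / (‖c‖ : ℂ) := ⟨_, rfl⟩
  have hcn : (‖c‖ : ℂ) ≠ 0 := by exact_mod_cast hc0.ne'
  have hu1 : ‖u‖ = 1 := by
    rw [hu, norm_div, Complex.norm_real, Real.norm_of_nonneg hc0.le, div_self hc0.ne']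
  have e1 : ∀ x : Cm m, c • x = u • (‖c‖ • x) := by
    intro x
    funext j
    simp only [Pi.smul_apply, smul_eq_mul, Complex.real_smul]
    rw [hu]
    field_simp
  have hmu : Measurable fun x : Cm m => g (u • x) := hg.comp (rot_preserving hu1).measurable
  have h2 := lint_smul (volume : Measure (Cm m)) hc0.ne' hmu
  have h3 : ∫⁻ x, g (u • x) = ∫⁻ x, g x := (rot_preserving hu1).lintegral_comp hg
  simp_rw [e1]
  rw [h2, h3]
  congr 2
  rw [Module.finrank_pi_fintype]
  simp only [Complex.finrank_real_complex, Finset.sum_const, Finset.card_univ, Fintype.card_fin, smul_eq_mul]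
  rw [abs_of_nonneg (by positivity), inv_pow, mul_comm]

end Pool.Agent.H474.FK
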