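import Pool.Agent.H474.FK.Sup

set_option autoImplicit false

/-! # The estimate on the scaling line, and truncations -/

namespace Pool.Agent.H474.FK

open MeasureTheory Filter Topology Set Complex
open scoped ComplexConjugate ENNReal

variable {m : ℕ}

theorem emb {κ : ℂ} (hκ : 0 < κ.re) {F : Cm m → ℂ} (hF : Differentiable ℂ F) (hi : Integrable (fock κ F))
    {p q : ℝ} (hp : 1 < p) (hpq : p ≤ q) : ∫⁻ z, ‖fock κ F z‖ₑ ^ q ≤
      (ENNReal.ofReal ((p * κ.re / Real.pi) ^ (m / p)) * (∫⁻ z, ‖fock κ F z‖ₑ ^ p) ^ (1 / p)) ^ (q - p) * ∫⁻ z, ‖fock κ F z‖ₑ ^ p := by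
  rw [← lintegral_const_mul _ ((fock_cont hF).measurable.enorm.pow_const p)]
  refine lintegral_mono fun z => ?_
  have h1 : ‖fock κ F z‖ₑ ^ q = ‖fock κ F z‖ₑ ^ (q - p) * ‖fock κ F z‖ₑ ^ p := by
    rw [← ENNReal.rpow_add_of_nonneg _ _ (by linarith) (by linarith)]
    congr 1
    ring
  rw [h1]
  gcongr
  exact sup_bound hκ hF hi hp z

/-- the constant of the estimate -/
noncomputable def CC (m : ℕ) (p q : ℝ) : ℝ := KK (m * (q - 2)) / 2 * p ^ (m * (q - p) / p)

lemma KK_nonneg (r : ℝ) : 0 ≤ KK r := integral_nonneg fun s => by positivity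

theorem scaling (hm : 1 ≤ m) {κ : ℂ} (hκ : 0 < κ.re) {F : Cm m → ℂ} (hF : Differentiable ℂ F) (hi : Integrable (fock κ F))
    {p q : ℝ} (hp : 1 < p) (hq : 2 + 1 / (m : ℝ) < q) (hpq : m * q * (1 - 1 / p) = m + 1) :
    ∫⁻ y : Cm m × ℝ, ‖ext (fock κ F) y‖ₑ ^ q ≤
      ENNReal.ofReal (CC m p q) * ((∫⁻ z, ‖fock κ F z‖ₑ ^ p) ^ (1 / p)) ^ q := by
  have hpi := Real.pi_pos
  have hm0 : (0 : ℝ) < m := by exact_mod_cast hm
  have hq2 : 2 * m + 1 < m * q := by
    have h1 := mul_lt_mul_of_pos_left hq hm0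
    have h2 : m * (2 + 1 / (m : ℝ)) = 2 * m + 1 := by field_simp
    linarith
  have hp0 : 0 < p := by linarith
  have hpq' : m * q * (p - 1) = (m + 1) * p := by
    field_simp at hpq
    linarith
  have hpl : m * p < 2 * m + 1 := by nlinarith
  have hple : p ≤ q := by
    have : m * p < m * q := by linarith
    exact (lt_of_mul_lt_mul_left this hm0.le).le
  have hq0 : 0 ≤ q := by linarith
  obtain ⟨A, hA⟩ : ∃ A : ℝ, A = κ.re / Real.pi := ⟨_, rfl⟩
  have hA0 : 0 < A := by rw [hA]; positivity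
  obtain ⟨L, hL⟩ : ∃ L : ℝ≥0∞, L = (∫⁻ z, ‖fock κ F z‖ₑ ^ p) ^ (1 / p) := ⟨_, rfl⟩
  have hLp : ∫⁻ z, ‖fock κ F z‖ₑ ^ p = L ^ p := by
    rw [hL, ← ENNReal.rpow_mul, one_div, inv_mul_cancel₀ hp0.ne', ENNReal.rpow_one]
  have hr : 1 < m * (q - 2) := by nlinarith
  rw [ext_lint hκ hF hi hq0, t_lint hκ hr]
  have h1 := emb hκ hF hi hp hple
  rw [← hL, hLp] at h1
  rw [← hL, ← hA]
  have e0 : p * κ.re / Real.pi = p * A := by rw [hA]; ring
  rw [e0, ENNReal.mul_rpow_of_nonneg _ _ (by linarith : 0 ≤ q - p), ENNReal.ofReal_rpow_of_nonneg (by positivity) (by linarith),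
    mul_assoc, ← ENNReal.rpow_add_of_nonneg _ _ (by linarith) (by linarith), sub_add_cancel] at h1
  calc ENNReal.ofReal (A ^ (1 - m * (q - 2)) / 2 * KK (m * (q - 2))) * ∫⁻ z, ‖fock κ F z‖ₑ ^ q
      ≤ ENNReal.ofReal (A ^ (1 - m * (q - 2)) / 2 * KK (m * (q - 2))) * (ENNReal.ofReal (((p * A) ^ (m / p)) ^ (q - p)) * L ^ q) := by
        gcongr
    _ = ENNReal.ofReal (CC m p q) * L ^ q := by
        have hK := KK_nonneg (m * (q - 2))
        rw [← mul_assoc, ← ENNReal.ofReal_mul (by positivity)]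
        congr 2
        unfold CC
        rw [← Real.rpow_mul (by positivity), Real.mul_rpow hp0.le hA0.le]
        have e1 : (m / p * (q - p) : ℝ) = m * (q - p) / p := by ring
        rw [e1]
        have e2 : A ^ (1 - m * (q - 2)) * A ^ (m * (q - p) / p) = 1 := by
          rw [← Real.rpow_add hA0]
          have : 1 - m * (q - 2) + m * (q - p) / p = 0 := by
            field_simp
            nlinarith
          rw [this, Real.rpow_zero]
        calc A ^ (1 - m * (q - 2)) / 2 * KK (m * (q - 2)) * (p ^ (m * (q - p) / p) * A ^ (m * (q - p) / p))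
            = (A ^ (1 - m * (q - 2)) * A ^ (m * (q - p) / p)) * (KK (m * (q - 2)) / 2 * p ^ (m * (q - p) / p)) := by ring
          _ = _ := by rw [e2, one_mul]

/-- the Fourier transform of an integrable function -/
noncomputable def ft1 (k : Cm m → ℂ) (z : Cm m) : ℂ := ∫ w, k w * cexp (2 * Real.pi * I * ip z w)

lemma ip_add_right (z x w : Cm m) : ip z (x + w) = ip z x + ip z w := by
  unfold ip
  rw [← Finset.sum_add_distrib]
  refine Finset.sum_congr rfl fun j _ => ?_
  rw [Pi.add_apply, map_add, mul_add, Complex.add_re]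

/-- multiplication by a Fourier transform is an average of translations of the extension -/
theorem ext_mul {k f : Cm m → ℂ} (hk : Integrable k) (hf : Integrable f) (y : Cm m × ℝ) :
    ext (fun z => ft1 k z * f z) y = ∫ w, k w * ext f (y.1 + w, y.2) := by
  obtain ⟨x, t⟩ := y
  unfold ext ft1
  simp only
  have e1 : ∀ z : Cm m, (∫ w, k w * cexp (2 * Real.pi * I * ip z w)) * f z * cexp (2 * Real.pi * I * (ip z x + t * nsq z)) =
      ∫ w, k w * f z * cexp (2 * Real.pi * I * (ip z (x + w) + t * nsq z)) := by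
    intro z
    rw [mul_assoc, ← integral_mul_const]
    refine integral_congr_ae (Eventually.of_forall fun w => ?_)
    show k w * cexp (2 * Real.pi * I * ip z w) * (f z * cexp (2 * Real.pi * I * (ip z x + t * nsq z))) =
      k w * f z * cexp (2 * Real.pi * I * (ip z (x + w) + t * nsq z))
    have : cexp (2 * Real.pi * I * (ip z (x + w) + t * nsq z)) =
        cexp (2 * Real.pi * I * ip z w) * cexp (2 * Real.pi * I * (ip z x + t * nsq z)) := by
      rw [← Complex.exp_add, ip_add_right]
      congr 1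
      push_cast
      ring
    rw [this]
    ring
  simp_rw [e1]
  have hc : Continuous fun p : Cm m × Cm m => cexp (2 * Real.pi * I * (ip p.1 (x + p.2) + t * nsq p.1)) := by
    have h1 : Continuous fun p : Cm m × Cm m => ip p.1 (x + p.2) :=
      ip_cont.comp (continuous_fst.prodMk (continuous_const.add continuous_snd))
    have h2 : Continuous fun p : Cm m × Cm m => nsq p.1 := nsq_cont.comp continuous_fst
    exact Complex.continuous_exp.comp (by fun_prop)
  have hkf : Integrable (fun p : Cm m × Cm m => k p.2 * f p.1) ((volume : Measure (Cm m)).prod volume) := by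
    have := hf.mul_prod hk
    exact this.congr (Eventually.of_forall fun p => mul_comm _ _)
  have hint : Integrable (Function.uncurry fun (z w : Cm m) => k w * f z * cexp (2 * Real.pi * I * (ip z (x + w) + t * nsq z)))
      ((volume : Measure (Cm m)).prod volume) := by
    refine hkf.norm.mono' (hkf.aestronglyMeasurable.mul hc.aestronglyMeasurable) (Eventually.of_forall fun p => ?_)
    show ‖k p.2 * f p.1 * cexp (2 * Real.pi * I * (ip p.1 (x + p.2) + t * nsq p.1))‖ ≤ ‖k p.2 * f p.1‖
    rw [norm_mul]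
    have : (2 * Real.pi * I * (ip p.1 (x + p.2) + t * nsq p.1) : ℂ) = ((2 * Real.pi * (ip p.1 (x + p.2) + t * nsq p.1) : ℝ) : ℂ) * I := by
      push_cast
      ring
    rw [this, Complex.norm_exp_ofReal_mul_I, mul_one]
  rw [integral_integral_swap hint]
  refine integral_congr_ae (Eventually.of_forall fun w => ?_)
  show ∫ z, k w * f z * cexp (2 * Real.pi * I * (ip z (x + w) + t * nsq z)) =
    k w * ∫ z, f z * cexp (2 * Real.pi * I * (ip z (x + w) + t * nsq z))
  rw [← integral_const_mul]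
  refine integral_congr_ae (Eventually.of_forall fun z => ?_)
  show k w * f z * _ = k w * (f z * _)
  ring

end Pool.Agent.H474.FK
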