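import Pool.Agent.H474.FK.Core

set_option autoImplicit false

/-! # The Fourier transform of an entire function times a Gaussian -/

namespace Pool.Agent.H474.FK

open MeasureTheory Filter Topology Set Complex
open scoped ComplexConjugate

variable {m : ℕ}

lemma nsqC (z : Cm m) : ((nsq z : ℝ) : ℂ) = ∑ j, z j * conj (z j) := by
  unfold nsq
  push_cast
  refine Finset.sum_congr rfl fun j _ => ?_
  rw [Complex.mul_conj, Complex.normSq_eq_norm_sq]
  push_cast
  rfl

lemma ipC (z x : Cm m) : ((ip z x : ℝ) : ℂ) = ∑ j, (z j * conj (x j) + conj (z j) * x j) / 2 := by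
  unfold ip
  push_cast
  refine Finset.sum_congr rfl fun j _ => ?_
  rw [Complex.re_eq_add_conj, map_mul, Complex.conj_conj]

lemma b_ne {b : ℂ} (hb : 0 < b.re) : b ≠ 0 := by
  intro h
  rw [h] at hb
  simp at hb

lemma expo {b : ℂ} (hb : b ≠ 0) (z x : Cm m) :
    -(Real.pi * b * nsq (z + (I / b) • x)) + 2 * Real.pi * I * ip (z + (I / b) • x) x =
      (∑ j, z j * (Real.pi * I * conj (x j) - Real.pi * b * conj (((I / b) • x) j))) + -(Real.pi * b * nsq z) +
        -(Real.pi * nsq x / b) := by
  rw [nsqC, nsqC, nsqC, ipC, Finset.mul_sum, Finset.mul_sum, Finset.mul_sum, Finset.mul_sum, Finset.sum_div, ← Finset.sum_neg_distrib,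
    ← Finset.sum_neg_distrib, ← Finset.sum_neg_distrib, ← Finset.sum_add_distrib, ← Finset.sum_add_distrib, ← Finset.sum_add_distrib]
  refine Finset.sum_congr rfl fun j _ => ?_
  simp only [Pi.add_apply, Pi.smul_apply, smul_eq_mul, map_add, map_mul, map_div₀, Complex.conj_I]
  have hb' : conj b ≠ 0 := by simpa using hb
  field_simp
  ring_nf
  simp only [Complex.I_sq]
  ring

lemma phase_norm (z x : Cm m) : ‖cexp (2 * Real.pi * I * ip z x)‖ = 1 := by
  have : (2 * Real.pi * I * ip z x : ℂ) = ((2 * Real.pi * ip z x : ℝ) : ℂ) * I := by push_cast; ring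
  rw [this, Complex.norm_exp_ofReal_mul_I]

/-- the Fourier transform of an entire function times a complex Gaussian -/
theorem ft {F : Cm m → ℂ} (hF : Differentiable ℂ F) {b : ℂ} (hb : 0 < b.re)
    (hint : Integrable fun z => F z * cexp (-(Real.pi * b * nsq z))) (x : Cm m) :
    ∫ z, F z * cexp (-(Real.pi * b * nsq z)) * cexp (2 * Real.pi * I * ip z x) =
      (b⁻¹) ^ m * (F ((I / b) • x) * cexp (-(Real.pi * nsq x / b))) := by
  obtain ⟨c, hc⟩ : ∃ c : Cm m, c = (I / b) • x := ⟨_, rfl⟩
  have hb0 := b_ne hb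
  obtain ⟨h, hh⟩ : ∃ h : Cm m → ℂ, h = fun z => F z * cexp (-(Real.pi * b * nsq z)) * cexp (2 * Real.pi * I * ip z x) := ⟨_, rfl⟩
  have hipc : Continuous fun z : Cm m => ip z x := ip_cont.comp (continuous_id.prodMk continuous_const)
  have hcont : Continuous h := by
    rw [hh]
    refine (hF.continuous.mul ?_).mul ?_
    · exact Complex.continuous_exp.comp (by have := nsq_cont (m := m); fun_prop)
    · exact Complex.continuous_exp.comp (by fun_prop)
  have hi : Integrable h := by
    refine hint.norm.mono' hcont.aestronglyMeasurable (Eventually.of_forall fun z => ?_)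
    rw [hh]
    show ‖F z * cexp (-(Real.pi * b * nsq z)) * cexp (2 * Real.pi * I * ip z x)‖ ≤ _
    rw [norm_mul, phase_norm, mul_one]
  obtain ⟨H, hH⟩ : ∃ H : Cm m → ℂ, H = fun z => F (z + c) *
    cexp (∑ j, z j * (Real.pi * I * conj (x j) - Real.pi * b * conj (c j))) * cexp (-(Real.pi * nsq x / b)) := ⟨_, rfl⟩
  have hHd : Differentiable ℂ H := by
    rw [hH]
    have h1 : Differentiable ℂ fun z : Cm m => F (z + c) := hF.comp (differentiable_id.add_const c)
    have h2 : Differentiable ℂ fun z : Cm m => ∑ j, z j * (Real.pi * I * conj (x j) - Real.pi * b * conj (c j)) := by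
      fun_prop
    exact (h1.mul h2.cexp).mul_const _
  have hfac : ∀ z, h (z + c) = H z * cexp (-(Real.pi * b * nsq z)) := by
    intro z
    rw [hh, hH]
    show F (z + c) * cexp (-(Real.pi * b * nsq (z + c))) * cexp (2 * Real.pi * I * ip (z + c) x) = _
    have h1 := expo hb0 z x
    rw [← hc] at h1
    rw [mul_assoc, ← Complex.exp_add, h1, Complex.exp_add, Complex.exp_add]
    ring
  have h1 : ∫ z, h z = ∫ z, H z * cexp (-(Real.pi * b * nsq z)) := by
    rw [← integral_add_right_eq_self h c]
    exact integral_congr_ae (Eventually.of_forall hfac)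
  have h2 : Integrable fun z => H z * cexp (-(Real.pi * b * nsq z)) := by
    have := hi.comp_add_right c
    exact this.congr (Eventually.of_forall hfac)
  have h3 := mean_value hHd (φ := fun z => cexp (-(Real.pi * b * nsq z)))
    (Complex.continuous_exp.comp (by have := nsq_cont (m := m); fun_prop)) (fun u z hu => by
      show cexp (-(Real.pi * b * nsq (u • z))) = _
      rw [nsq_smul, hu, one_pow, one_mul]) h2
  have h4 : H 0 = F c * cexp (-(Real.pi * nsq x / b)) := by
    rw [hH]
    simp
  rw [hh] at h1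
  rw [h1, h3, gauss hb, h4, hc]
  ring

end Pool.Agent.H474.FK
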