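import Pool.Agent.H474.FK.Ext

set_option autoImplicit false

/-! # The `L^q` norm of the extension of a Fock function -/

namespace Pool.Agent.H474.FK

open MeasureTheory Filter Topology Set Complex
open scoped ComplexConjugate ENNReal

variable {m : ℕ}

lemma bb_cont (κ : ℂ) : Continuous (bb κ) := by
  unfold bb
  fun_prop

lemma bb_npos {κ : ℂ} (hκ : 0 < κ.re) (t : ℝ) : 0 < ‖bb κ t‖ := norm_pos_iff.2 (b_ne (bb_pos hκ t))

lemma arg_cont {κ : ℂ} (hκ : 0 < κ.re) : Continuous fun y : Cm m × ℝ => (I / bb κ y.2) • y.1 := by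
  have h1 : Continuous fun y : Cm m × ℝ => I / bb κ y.2 :=
    continuous_const.div ((bb_cont κ).comp continuous_snd) fun y => b_ne (bb_pos hκ y.2)
  exact h1.smul continuous_fst

theorem ext_lint {κ : ℂ} (hκ : 0 < κ.re) {F : Cm m → ℂ} (hF : Differentiable ℂ F) (hi : Integrable (fock κ F))
    {q : ℝ} (hq : 0 ≤ q) : ∫⁻ y : Cm m × ℝ, ‖ext (fock κ F) y‖ₑ ^ q =
      (∫⁻ t : ℝ, ENNReal.ofReal (‖bb κ t‖ ^ (-(m * (q - 2))))) * ∫⁻ z, ‖fock κ F z‖ₑ ^ q := by
  have hfc := fock_cont (κ := κ) hF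
  have e1 : ∀ y : Cm m × ℝ, ‖ext (fock κ F) y‖ₑ ^ q =
      ENNReal.ofReal ((‖bb κ y.2‖⁻¹) ^ (m * q)) * ‖fock κ F ((I / bb κ y.2) • y.1)‖ₑ ^ q := by
    intro y
    have h0 := bb_npos hκ y.2
    rw [← ofReal_norm, ext_fock hκ hF hi y, ENNReal.ofReal_mul (by positivity), ENNReal.mul_rpow_of_nonneg _ _ hq,
      ofReal_norm, ENNReal.ofReal_rpow_of_nonneg (by positivity) hq]
    congr 2
    rw [← Real.rpow_natCast, ← Real.rpow_mul (by positivity)]
  simp_rw [e1]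
  have hm1 : Continuous fun y : Cm m × ℝ => (‖bb κ y.2‖⁻¹) ^ (m * q) := by
    refine Continuous.rpow_const ?_ fun y => Or.inl (inv_pos.2 (bb_npos hκ y.2)).ne'
    exact ((bb_cont κ).comp continuous_snd).norm.inv₀ fun y => (bb_npos hκ y.2).ne'
  have hm2 : Measurable fun y : Cm m × ℝ => ‖fock κ F ((I / bb κ y.2) • y.1)‖ₑ ^ q :=
    (hfc.comp (arg_cont hκ)).measurable.enorm.pow_const q
  have hm3 : Measurable fun y : Cm m × ℝ =>
      ENNReal.ofReal ((‖bb κ y.2‖⁻¹) ^ (m * q)) * ‖fock κ F ((I / bb κ y.2) • y.1)‖ₑ ^ q :=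
    hm1.measurable.ennreal_ofReal.mul hm2
  rw [Measure.volume_eq_prod, lintegral_prod_symm _ hm3.aemeasurable]
  have hg : Measurable fun z : Cm m => ‖fock κ F z‖ₑ ^ q := hfc.measurable.enorm.pow_const q
  have e2 : ∀ t : ℝ, ∫⁻ x : Cm m, ENNReal.ofReal ((‖bb κ t‖⁻¹) ^ (m * q)) * ‖fock κ F ((I / bb κ t) • x)‖ₑ ^ q =
      ENNReal.ofReal (‖bb κ t‖ ^ (-(m * (q - 2)))) * ∫⁻ z, ‖fock κ F z‖ₑ ^ q := by
    intro t
    have h0 := bb_npos hκ t
    have hne : I / bb κ t ≠ 0 := div_ne_zero Complex.I_ne_zero (norm_pos_iff.1 h0)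
    rw [lintegral_const_mul' _ _ ENNReal.ofReal_ne_top]
    have h1 := lint_csmul hne hg
    rw [h1, ← mul_assoc, ← ENNReal.ofReal_mul (by positivity)]
    congr 2
    rw [norm_div, Complex.norm_I, one_div, inv_inv, Real.inv_rpow h0.le, ← Real.rpow_neg h0.le, ← Real.rpow_natCast,
      ← Real.rpow_add h0]
    congr 1
    push_cast
    ring
  simp only
  simp_rw [e2]
  rw [lintegral_mul_const _ ?_]
  refine Measurable.ennreal_ofReal ?_
  refine Continuous.measurable ?_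
  exact (bb_cont κ).norm.rpow_const fun t => Or.inl (bb_npos hκ t).ne'

/-- the constant `∫ (1+s²)^(-r/2) ds` -/
noncomputable def KK (r : ℝ) : ℝ := ∫ s : ℝ, (1 + s ^ 2) ^ (-r / 2)

lemma KK_int {r : ℝ} (hr : 1 < r) : Integrable fun s : ℝ => (1 + s ^ 2) ^ (-r / 2) := by
  have h := integrable_rpow_neg_one_add_norm_sq (E := ℝ) (μ := volume) (r := r) (by simpa using hr)
  refine h.congr (Eventually.of_forall fun s => ?_)
  simp

lemma KK_lint {r : ℝ} (hr : 1 < r) : ∫⁻ s : ℝ, ENNReal.ofReal ((1 + s ^ 2) ^ (-r / 2)) = ENNReal.ofReal (KK r) := by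
  unfold KK
  rw [ofReal_integral_eq_lintegral_ofReal (KK_int hr) (Eventually.of_forall fun s => by positivity)]

lemma bb_norm {κ : ℂ} (hκ : 0 < κ.re) (t : ℝ) :
    ‖bb κ t‖ = κ.re / Real.pi * (1 + (κ.im / κ.re + (-(2 * Real.pi / κ.re)) • t) ^ 2) ^ (1 / 2 : ℝ) := by
  have hpi := Real.pi_pos
  rw [← Real.sqrt_eq_rpow]
  have h1 : ‖bb κ t‖ ^ 2 = (κ.re / Real.pi) ^ 2 * (1 + (κ.im / κ.re + (-(2 * Real.pi / κ.re)) • t) ^ 2) := by
    rw [← Complex.normSq_eq_norm_sq, Complex.normSq_apply, bb_re]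
    have h2 : (bb κ t).im = κ.im / Real.pi - 2 * t := by
      unfold bb
      rw [Complex.sub_im, Complex.div_ofReal_im]
      simp
    rw [h2, smul_eq_mul]
    field_simp
    ring
  rw [← Real.sqrt_sq (norm_nonneg (bb κ t)), h1, Real.sqrt_mul (by positivity), Real.sqrt_sq (by positivity)]

theorem t_lint {κ : ℂ} (hκ : 0 < κ.re) {r : ℝ} (hr : 1 < r) :
    ∫⁻ t : ℝ, ENNReal.ofReal (‖bb κ t‖ ^ (-r)) = ENNReal.ofReal ((κ.re / Real.pi) ^ (1 - r) / 2 * KK r) := by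
  have hpi := Real.pi_pos
  obtain ⟨g, hg⟩ : ∃ g : ℝ → ℝ≥0∞, g = fun s => ENNReal.ofReal ((1 + s ^ 2) ^ (-r / 2)) := ⟨_, rfl⟩
  have hgm : Measurable g := by
    rw [hg]
    refine Measurable.ennreal_ofReal (Continuous.measurable ?_)
    refine Continuous.rpow_const (by fun_prop) fun s => Or.inl (by positivity)
  have e1 : ∀ t : ℝ, ENNReal.ofReal (‖bb κ t‖ ^ (-r)) =
      ENNReal.ofReal ((κ.re / Real.pi) ^ (-r)) * g (κ.im / κ.re + (-(2 * Real.pi / κ.re)) • t) := by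
    intro t
    rw [bb_norm hκ t, hg, ← ENNReal.ofReal_mul (by positivity), Real.mul_rpow (by positivity) (by positivity),
      ← Real.rpow_mul (by positivity)]
    congr 3
    ring
  simp_rw [e1]
  rw [lintegral_const_mul' _ _ ENNReal.ofReal_ne_top]
  have h1 := lint_smul (volume : Measure ℝ) (r := -(2 * Real.pi / κ.re)) (by
    have : 0 < 2 * Real.pi / κ.re := by positivity
    linarith) (g := fun s => g (κ.im / κ.re + s)) (hgm.comp (measurable_const_add _))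
  rw [h1, lintegral_add_left_eq_self g, hg, KK_lint hr, ← mul_assoc, ← ENNReal.ofReal_mul (by positivity),
    ← ENNReal.ofReal_mul (by positivity)]
  congr 1
  rw [Module.finrank_self, pow_one, abs_inv, abs_neg, abs_of_pos (by positivity), Real.rpow_sub (by positivity), Real.rpow_one,
    Real.rpow_neg (by positivity)]
  field_simp

end Pool.Agent.H474.FK
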