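import Pool.Agent.H474.FK.Wt

set_option autoImplicit false

/-! # Smooth functions with compact support are Fourier transforms -/

namespace Pool.Agent.H474.FK

open MeasureTheory Filter Topology Set Complex
open scoped ComplexConjugate ENNReal FourierTransform SchwartzMap ContDiff

variable {m : ℕ}

/-- the euclidean space -/
abbrev VV (m : ℕ) := EuclideanSpace ℝ (Fin m ⊕ Fin m)

/-- coordinates -/
noncomputable def eL (m : ℕ) : VV m ≃ₗ[ℝ] Cm m where
  toFun v := fun j => ⟨v (Sum.inl j), v (Sum.inr j)⟩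
  invFun z := WithLp.toLp 2 (Sum.elim (fun j => (z j).re) (fun j => (z j).im))
  map_add' v w := by
    funext j
    apply Complex.ext <;> simp
  map_smul' c v := by
    funext j
    apply Complex.ext <;> simp
  left_inv v := by
    ext i
    rcases i with i | i <;> simp
  right_inv z := by
    funext j
    apply Complex.ext <;> simp

/-- coordinates, continuous -/
noncomputable def eC (m : ℕ) : VV m ≃L[ℝ] Cm m := (eL m).toContinuousLinearEquiv

lemma ip_eC (v w : VV m) : ip (eC m v) (eC m w) = inner ℝ v w := by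
  unfold ip
  rw [PiLp.inner_apply, Fintype.sum_sum_type, ← Finset.sum_add_distrib]
  refine Finset.sum_congr rfl fun j _ => ?_
  have h1 : ∀ u : VV m, eC m u j = ⟨u (Sum.inl j), u (Sum.inr j)⟩ := fun u => rfl
  rw [h1, h1, Complex.mul_re, Complex.conj_re, Complex.conj_im]
  simp only [RCLike.inner_apply, conj_trivial]
  ring

theorem smooth_rep {χ : Cm m → ℂ} (h1 : ContDiff ℝ ∞ χ) (h2 : HasCompactSupport χ) :
    ∃ k : Cm m → ℂ, Integrable k ∧ ∀ z, χ z = ft1 k z := by
  obtain ⟨ψ, hψ⟩ : ∃ ψ : VV m → ℂ, ψ = fun v => χ (eC m v) := ⟨_, rfl⟩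
  have hψ1 : ContDiff ℝ ∞ ψ := by rw [hψ]; exact h1.comp (eC m).contDiff
  have hψ2 : HasCompactSupport ψ := by rw [hψ]; exact h2.comp_homeomorph (eC m).toHomeomorph
  obtain ⟨s, hs⟩ : ∃ s : 𝓢(VV m, ℂ), s = hψ2.toSchwartzMap hψ1 := ⟨_, rfl⟩
  have hsψ : (s : VV m → ℂ) = ψ := by rw [hs]; rfl
  obtain ⟨g, hg⟩ : ∃ g : VV m → ℂ, g = 𝓕 ψ := ⟨_, rfl⟩
  have hgi : Integrable g := by
    rw [hg, ← hsψ, ← SchwartzMap.fourier_coe]
    exact (𝓕 s).integrable
  have hψi : Integrable ψ := by rw [← hsψ]; exact s.integrable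
  have hinv : 𝓕⁻ g = ψ := by
    rw [hg]
    exact hψ1.continuous.fourierInv_fourier_eq hψi (by rw [← hg]; exact hgi)
  obtain ⟨ν, hν⟩ : ∃ ν : Measure (Cm m), ν = (volume : Measure (VV m)).map (eC m) := ⟨_, rfl⟩
  have hνH : ν.IsAddHaarMeasure := by rw [hν]; infer_instance
  obtain ⟨c, hc⟩ : ∃ c : NNReal, c = Measure.addHaarScalarFactor ν (volume : Measure (Cm m)) := ⟨_, rfl⟩
  have hνc : ν = c • (volume : Measure (Cm m)) := by rw [hc]; exact Measure.isAddLeftInvariant_eq_smul ν volume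
  have hemb : MeasurableEmbedding (eC m) := (eC m).toHomeomorph.measurableEmbedding
  have hcpos : c ≠ 0 := by
    rw [hc]
    exact (Measure.addHaarScalarFactor_pos_of_isAddHaarMeasure ν volume).ne'
  refine ⟨fun u => (c : ℂ) * g ((eC m).symm u), ?_, fun z => ?_⟩
  · refine Integrable.const_mul ?_ _
    have h3 : Integrable (fun u => g ((eC m).symm u)) ν := by
      rw [hν, hemb.integrable_map_iff]
      refine hgi.congr (Eventually.of_forall fun v => ?_)
      simp
    rw [hνc] at h3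
    have h4 : (volume : Measure (Cm m)) = c⁻¹ • (c • (volume : Measure (Cm m))) := by
      rw [smul_smul, inv_mul_cancel₀ hcpos, one_smul]
    rw [h4]
    exact h3.smul_measure_nnreal
  · obtain ⟨v, rfl⟩ := (eC m).surjective z
    have h4 : χ (eC m v) = 𝓕⁻ g v := by rw [hinv, hψ]
    rw [h4, Real.fourierInv_eq']
    unfold ft1
    have h5 : ∫ w : VV m, cexp (↑(2 * Real.pi * inner ℝ w v) * I) • g w =
        ∫ u, cexp (2 * Real.pi * I * ip (eC m v) u) * g ((eC m).symm u) ∂ν := by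
      rw [hν, hemb.integral_map]
      refine integral_congr_ae (Eventually.of_forall fun w => ?_)
      simp only [ContinuousLinearEquiv.symm_apply_apply]
      rw [ip_eC, real_inner_comm, smul_eq_mul]
      congr 2
      push_cast
      ring
    rw [h5, hνc, integral_smul_nnreal_measure, NNReal.smul_def, ← integral_smul]
    refine integral_congr_ae (Eventually.of_forall fun u => ?_)
    show ((c : ℝ) • (cexp (2 * Real.pi * I * ip (eC m v) u) * g ((eC m).symm u)) : ℂ) =
      (c : ℂ) * g ((eC m).symm u) * cexp (2 * Real.pi * I * ip (eC m v) u)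
    rw [Complex.real_smul]
    ring

lemma nsq_smooth : ContDiff ℝ ∞ (nsq : Cm m → ℝ) := by
  unfold nsq
  exact ContDiff.sum fun j _ => (contDiff_apply ℝ ℂ j).norm_sq ℝ

theorem smooth_cut {χ : Cm m → ℂ} (h1 : ContDiff ℝ ∞ χ) (h2 : HasCompactSupport χ) {q : ℝ} (hq : 1 < q) (hr : 1 < m * (q - 2)) :
    ∃ C : ℝ, 0 ≤ C ∧ ∀ (κ : ℂ) (F : Cm m → ℂ), 0 ≤ κ.re → Differentiable ℂ F → (∀ z, ‖fock κ F z‖ ≤ 1) →
      ∫⁻ y : Cm m × ℝ, ‖ext (fun z => χ z * fock κ F z) y‖ₑ ^ q ≤ ENNReal.ofReal (C * (κ.re + 1) ^ (1 - m * (q - 2))) := by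
  have hpi := Real.pi_pos
  have hq0 : 0 < q := by linarith
  have hη1 : ContDiff ℝ ∞ fun z : Cm m => χ z * cexp (nsq z) :=
    h1.mul (Complex.ofRealCLM.contDiff.comp nsq_smooth).cexp
  have hη2 : HasCompactSupport fun z : Cm m => χ z * cexp (nsq z) := h2.mul_right
  obtain ⟨k, hk, hrep⟩ := smooth_rep hη1 hη2
  have hKK := KK_nonneg (m * (q - 2))
  have hkn : 0 ≤ ∫ w, ‖k w‖ := integral_nonneg fun w => norm_nonneg _
  refine ⟨(∫ w, ‖k w‖) ^ q * ((1 / Real.pi) ^ (1 - m * (q - 2)) / 2 * KK (m * (q - 2)) * (Real.pi / q) ^ m), by positivity,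
    fun κ F hκ hF hb => ?_⟩
  have hb' : ∀ z, ‖F z‖ ≤ Real.exp (κ.re * nsq z) := by
    intro z
    have h3 := hb z
    rw [fock_norm, Real.exp_neg, ← div_eq_mul_inv, div_le_one (Real.exp_pos _)] at h3
    exact h3
  have h4 := trunc (a := κ.re) (κ := κ + 1) hκ (by simp) hF hb' hk hq hr
  have e1 : (fun z => ft1 k z * fock (κ + 1) F z) = fun z => χ z * fock κ F z := by
    funext z
    rw [← hrep z]
    unfold fock
    have : cexp (-((κ + 1) * nsq z)) = cexp (-(nsq z)) * cexp (-(κ * nsq z)) := by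
      rw [← Complex.exp_add]
      congr 1
      ring
    rw [this]
    have h5 : cexp (nsq z) * cexp (-(nsq z)) = 1 := by rw [← Complex.exp_add, add_neg_cancel, Complex.exp_zero]
    calc χ z * cexp (nsq z) * (F z * (cexp (-(nsq z)) * cexp (-(κ * nsq z))))
        = χ z * (F z * cexp (-(κ * nsq z))) * (cexp (nsq z) * cexp (-(nsq z))) := by ring
      _ = _ := by rw [h5, mul_one]
  rw [e1, ← ofReal_integral_norm_eq_lintegral_enorm hk, ENNReal.ofReal_rpow_of_nonneg hkn hq0.le,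
    ← ENNReal.ofReal_mul (by positivity)] at h4
  refine h4.trans (le_of_eq ?_)
  congr 1
  have e2 : ((κ.re + 1) / Real.pi) ^ (1 - m * (q - 2)) = (κ.re + 1) ^ (1 - m * (q - 2)) * (1 / Real.pi) ^ (1 - m * (q - 2)) := by
    rw [← Real.mul_rpow (by linarith) (by positivity)]
    congr 1
    ring
  rw [e2]
  ring

end Pool.Agent.H474.FK
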