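import Pool.Agent.H474.FK.Nrm

set_option autoImplicit false

/-! # The sup bound for Fock functions and the estimate on the scaling line -/

namespace Pool.Agent.H474.FK

open MeasureTheory Filter Topology Set Complex
open scoped ComplexConjugate ENNReal

variable {m : ℕ}

lemma gaussR {l : ℝ} (hl : 0 < l) : ∫⁻ z : Cm m, ENNReal.ofReal (Real.exp (-(l * nsq z))) = ENNReal.ofReal ((Real.pi / l) ^ m) := by
  have hpi := Real.pi_pos
  have h1 := gauss (m := m) (b := ((l / Real.pi : ℝ) : ℂ)) (by rw [Complex.ofReal_re]; positivity)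
  have e1 : ∀ z : Cm m, cexp (-(Real.pi * ((l / Real.pi : ℝ) : ℂ) * nsq z)) = ((Real.exp (-(l * nsq z)) : ℝ) : ℂ) := by
    intro z
    rw [Complex.ofReal_exp]
    congr 1
    push_cast
    have : (Real.pi : ℂ) ≠ 0 := by exact_mod_cast hpi.ne'
    field_simp
  simp_rw [e1] at h1
  have e2 : ((((l / Real.pi : ℝ) : ℂ))⁻¹) ^ m = (((Real.pi / l) ^ m : ℝ) : ℂ) := by
    push_cast
    rw [inv_div]
  rw [e2, integral_complex_ofReal] at h1
  have h2 : ∫ z : Cm m, Real.exp (-(l * nsq z)) = (Real.pi / l) ^ m := by exact_mod_cast h1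
  have hi : Integrable fun z : Cm m => Real.exp (-(l * nsq z)) := by
    by_contra h
    rw [integral_undef h] at h2
    have : 0 < (Real.pi / l) ^ m := by positivity
    linarith
  rw [← h2, ofReal_integral_eq_lintegral_ofReal hi (Eventually.of_forall fun z => (Real.exp_pos _).le)]

lemma nsq_add (z c : Cm m) : nsq (z + c) = nsq z + 2 * ip z c + nsq c := by
  unfold nsq ip
  rw [Finset.mul_sum, ← Finset.sum_add_distrib, ← Finset.sum_add_distrib]
  refine Finset.sum_congr rfl fun j _ => ?_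
  rw [Pi.add_apply, ← Complex.normSq_eq_norm_sq, ← Complex.normSq_eq_norm_sq, ← Complex.normSq_eq_norm_sq, Complex.normSq_add]
  ring

theorem sup_bound {κ : ℂ} (hκ : 0 < κ.re) {F : Cm m → ℂ} (hF : Differentiable ℂ F) (hi : Integrable (fock κ F))
    {p : ℝ} (hp : 1 < p) (c : Cm m) :
    ‖fock κ F c‖ₑ ≤ ENNReal.ofReal ((p * κ.re / Real.pi) ^ (m / p)) * (∫⁻ z, ‖fock κ F z‖ₑ ^ p) ^ (1 / p) := by
  have hpi := Real.pi_pos
  obtain ⟨a, ha⟩ : ∃ a : ℝ, a = κ.re := ⟨_, rfl⟩
  rw [← ha] at hκ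
  have hp0 : 0 < p := by linarith
  obtain ⟨b, hb⟩ : ∃ b : ℂ, b = ((p * a / Real.pi : ℝ) : ℂ) := ⟨_, rfl⟩
  have hbr : Real.pi * b.re = p * a := by
    rw [hb, Complex.ofReal_re]
    field_simp
  have hbp : 0 < b.re := by rw [hb, Complex.ofReal_re]; positivity
  obtain ⟨H, hH⟩ : ∃ H : Cm m → ℂ, H = fun z => F (z + c) * cexp (∑ j, z j * (-(2 * a) * conj (c j))) * cexp (-(a * nsq c)) := ⟨_, rfl⟩
  have hHd : Differentiable ℂ H := by
    rw [hH]
    have h1 : Differentiable ℂ fun z : Cm m => F (z + c) := hF.comp (differentiable_id.add_const c)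
    have h2 : Differentiable ℂ fun z : Cm m => ∑ j, z j * (-(2 * a) * conj (c j)) := by fun_prop
    exact (h1.mul h2.cexp).mul_const _
  have hHn : ∀ z, ‖H z‖ * Real.exp (-(a * nsq z)) = ‖fock κ F (z + c)‖ := by
    intro z
    rw [hH, fock_norm, ← ha]
    show ‖F (z + c) * cexp (∑ j, z j * (-(2 * a) * conj (c j))) * cexp (-(a * nsq c))‖ * _ = _
    have e1 : (∑ j, z j * (-(2 * a) * conj (c j)) : ℂ).re = -(2 * a) * ip z c := by
      unfold ip
      rw [Finset.mul_sum, Complex.re_sum]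
      refine Finset.sum_congr rfl fun j _ => ?_
      have : (z j * (-(2 * a) * conj (c j)) : ℂ) = ((-(2 * a) : ℝ) : ℂ) * (z j * conj (c j)) := by push_cast; ring
      rw [this, Complex.re_ofReal_mul]
    have e2 : (-(a * nsq c : ℂ)).re = -(a * nsq c) := by
      rw [Complex.neg_re, Complex.re_ofReal_mul, Complex.ofReal_re]
    rw [norm_mul, norm_mul, Complex.norm_exp, Complex.norm_exp, e1, e2, nsq_add, mul_assoc, mul_assoc, ← Real.exp_add, ← Real.exp_add]
    congr 2
    ring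
  have hφn : ∀ z : Cm m, ‖cexp (-(Real.pi * b * nsq z))‖ = Real.exp (-(a * nsq z)) * Real.exp (-((p * a - a) * nsq z)) := by
    intro z
    rw [Complex.norm_exp, Complex.neg_re, Complex.re_mul_ofReal, Complex.re_ofReal_mul, hbr, ← Real.exp_add]
    congr 1
    ring
  have hprod : ∀ z, ‖H z * cexp (-(Real.pi * b * nsq z))‖ = ‖fock κ F (z + c)‖ * Real.exp (-((p * a - a) * nsq z)) := by
    intro z
    rw [norm_mul, hφn, ← mul_assoc, hHn]
  have hφc : Continuous fun z : Cm m => cexp (-(Real.pi * b * nsq z)) := by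
    refine Complex.continuous_exp.comp ?_
    have := nsq_cont (m := m)
    fun_prop
  have hint : Integrable fun z => H z * cexp (-(Real.pi * b * nsq z)) := by
    refine (hi.comp_add_right c).norm.mono' (hHd.continuous.mul hφc).aestronglyMeasurable (Eventually.of_forall fun z => ?_)
    rw [hprod]
    refine mul_le_of_le_one_right (norm_nonneg _) (Real.exp_le_one_iff.2 ?_)
    have h1 : 0 ≤ (p * a - a) * nsq z := mul_nonneg (by nlinarith) (nsq_nonneg z)
    linarith
  have h3 := mean_value hHd hφc (fun u z hu => by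
      show cexp (-(Real.pi * b * nsq (u • z))) = _
      rw [nsq_smul, hu, one_pow, one_mul]) hint
  rw [gauss hbp] at h3
  have hH0 : ‖H 0‖ = ‖fock κ F c‖ := by
    have := hHn 0
    have e0 : nsq (0 : Cm m) = 0 := by unfold nsq; simp
    rwa [e0, mul_zero, neg_zero, Real.exp_zero, mul_one, zero_add] at this
  have h4 : ‖H 0 * b⁻¹ ^ m‖ₑ ≤ ∫⁻ z, ‖H z * cexp (-(Real.pi * b * nsq z))‖ₑ := by
    rw [← h3]
    exact enorm_integral_le_lintegral_enorm _
  have h5 : ‖H 0 * b⁻¹ ^ m‖ₑ = ‖fock κ F c‖ₑ * ENNReal.ofReal ((Real.pi / (p * a)) ^ m) := by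
    rw [enorm_mul, ← ofReal_norm, hH0, ofReal_norm, ← ofReal_norm (b⁻¹ ^ m), norm_pow, norm_inv, hb, Complex.norm_real,
      Real.norm_of_nonneg (by positivity), inv_div]
  have hg : Continuous fun z : Cm m => Real.exp (-((p * a - a) * nsq z)) := by
    refine Real.continuous_exp.comp ?_
    have := nsq_cont (m := m)
    fun_prop
  have h6 : ∫⁻ z, ‖H z * cexp (-(Real.pi * b * nsq z))‖ₑ =
      ∫⁻ z, ‖fock κ F (z + c)‖ₑ * ENNReal.ofReal (Real.exp (-((p * a - a) * nsq z))) := by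
    refine lintegral_congr fun z => ?_
    rw [← ofReal_norm, hprod, ENNReal.ofReal_mul (norm_nonneg _), ofReal_norm]
  have hpq : p.HolderConjugate (p / (p - 1)) := Real.HolderConjugate.conjExponent hp
  have h7 : ∫⁻ z, ‖fock κ F (z + c)‖ₑ * ENNReal.ofReal (Real.exp (-((p * a - a) * nsq z))) ≤
      (∫⁻ z : Cm m, ‖fock κ F (z + c)‖ₑ ^ p) ^ (1 / p) *
        (∫⁻ z : Cm m, ENNReal.ofReal (Real.exp (-((p * a - a) * nsq z))) ^ (p / (p - 1))) ^ (1 / (p / (p - 1))) :=
    ENNReal.lintegral_mul_le_Lp_mul_Lq (volume : Measure (Cm m)) hpq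
    (f := fun z => ‖fock κ F (z + c)‖ₑ) (g := fun z => ENNReal.ofReal (Real.exp (-((p * a - a) * nsq z))))
    ((fock_cont hF).comp (continuous_add_const c)).measurable.enorm.aemeasurable hg.measurable.ennreal_ofReal.aemeasurable
  have h8 : ∫⁻ z : Cm m, ‖fock κ F (z + c)‖ₑ ^ p = ∫⁻ z, ‖fock κ F z‖ₑ ^ p :=
    lintegral_add_right_eq_self (fun z => ‖fock κ F z‖ₑ ^ p) c
  have hq0 : 0 < p / (p - 1) := div_pos hp0 (by linarith)
  have hp1 : p - 1 ≠ 0 := by linarith
  have h9 : ∫⁻ z : Cm m, ENNReal.ofReal (Real.exp (-((p * a - a) * nsq z))) ^ (p / (p - 1)) = ENNReal.ofReal ((Real.pi / (p * a)) ^ m) := by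
    rw [← gaussR (m := m) (show 0 < p * a by positivity)]
    refine lintegral_congr fun z => ?_
    rw [ENNReal.ofReal_rpow_of_nonneg (Real.exp_pos _).le hq0.le, ← Real.exp_mul]
    congr 2
    field_simp
  rw [h8, h9, ← h6] at h7
  have h10 := (h5 ▸ h4).trans h7
  have hR : 0 < p * a / Real.pi := by positivity
  have h11 : ENNReal.ofReal ((Real.pi / (p * a)) ^ m) * ENNReal.ofReal ((p * a / Real.pi) ^ m) = 1 := by
    rw [← ENNReal.ofReal_mul (by positivity), ← mul_pow]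
    have : Real.pi / (p * a) * (p * a / Real.pi) = 1 := by field_simp
    rw [this, one_pow, ENNReal.ofReal_one]
  have h12 : ENNReal.ofReal ((Real.pi / (p * a)) ^ m) ^ (1 / (p / (p - 1))) * ENNReal.ofReal ((p * a / Real.pi) ^ m) =
      ENNReal.ofReal ((p * a / Real.pi) ^ (m / p)) := by
    rw [ENNReal.ofReal_rpow_of_nonneg (by positivity) (by positivity), ← ENNReal.ofReal_mul (by positivity)]
    congr 1
    have e3 : Real.pi / (p * a) = (p * a / Real.pi)⁻¹ := by rw [inv_div]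
    rw [e3, ← Real.rpow_natCast, ← Real.rpow_natCast, Real.inv_rpow hR.le, ← Real.rpow_neg hR.le, ← Real.rpow_mul hR.le,
      ← Real.rpow_add hR]
    congr 1
    field_simp
    ring
  calc ‖fock κ F c‖ₑ = ‖fock κ F c‖ₑ * ENNReal.ofReal ((Real.pi / (p * a)) ^ m) * ENNReal.ofReal ((p * a / Real.pi) ^ m) := by
        rw [mul_assoc, h11, mul_one]
    _ ≤ (∫⁻ z, ‖fock κ F z‖ₑ ^ p) ^ (1 / p) * ENNReal.ofReal ((Real.pi / (p * a)) ^ m) ^ (1 / (p / (p - 1))) *
        ENNReal.ofReal ((p * a / Real.pi) ^ m) := by gcongr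
    _ = _ := by rw [mul_assoc, h12, ← ha, mul_comm]

end Pool.Agent.H474.FK
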