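import Pool.Agent.H474.FK.Fin

set_option autoImplicit false

/-! # Truncations -/

namespace Pool.Agent.H474.FK

open MeasureTheory Filter Topology Set Complex
open scoped ComplexConjugate ENNReal

variable {m : ℕ}

/-- Jensen's inequality for the weight `u` -/
lemma jensen {E : Type*} [MeasurableSpace E] {μ : Measure E} {u v : E → ℝ≥0∞} (hu : AEMeasurable u μ) (hv : AEMeasurable v μ)
    {q : ℝ} (hq : 1 < q) : (∫⁻ w, u w * v w ∂μ) ^ q ≤ (∫⁻ w, u w ∂μ) ^ (q - 1) * ∫⁻ w, u w * v w ^ q ∂μ := by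
  have hq0 : 0 < q := by linarith
  have hq1 : 0 < q - 1 := by linarith
  have hpq : (q / (q - 1)).HolderConjugate q := (Real.HolderConjugate.conjExponent hq).symm
  have h1 : ∫⁻ w, u w * v w ∂μ = ∫⁻ w, u w ^ ((q - 1) / q) * (u w ^ (1 / q) * v w) ∂μ := by
    refine lintegral_congr fun w => ?_
    rw [← mul_assoc, ← ENNReal.rpow_add_of_nonneg _ _ (by positivity) (by positivity)]
    have : (q - 1) / q + 1 / q = 1 := by field_simp; ring
    rw [this, ENNReal.rpow_one]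
  have h2 : ∫⁻ w, u w ^ ((q - 1) / q) * (u w ^ (1 / q) * v w) ∂μ ≤
      (∫⁻ w, (u w ^ ((q - 1) / q)) ^ (q / (q - 1)) ∂μ) ^ (1 / (q / (q - 1))) * (∫⁻ w, (u w ^ (1 / q) * v w) ^ q ∂μ) ^ (1 / q) :=
    ENNReal.lintegral_mul_le_Lp_mul_Lq μ hpq (hu.pow_const _) ((hu.pow_const _).mul hv)
  have h3 : ∀ w, (u w ^ ((q - 1) / q)) ^ (q / (q - 1)) = u w := by
    intro w
    rw [← ENNReal.rpow_mul]
    have : (q - 1) / q * (q / (q - 1)) = 1 := by field_simp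
    rw [this, ENNReal.rpow_one]
  have h4 : ∀ w, (u w ^ (1 / q) * v w) ^ q = u w * v w ^ q := by
    intro w
    rw [ENNReal.mul_rpow_of_nonneg _ _ hq0.le, ← ENNReal.rpow_mul, one_div, inv_mul_cancel₀ hq0.ne', ENNReal.rpow_one]
  simp_rw [h3, h4] at h2
  rw [h1]
  calc _ ≤ ((∫⁻ w, u w ∂μ) ^ (1 / (q / (q - 1))) * (∫⁻ w, u w * v w ^ q ∂μ) ^ (1 / q)) ^ q := by gcongr
    _ = _ := by
      rw [ENNReal.mul_rpow_of_nonneg _ _ hq0.le, ← ENNReal.rpow_mul, ← ENNReal.rpow_mul, one_div q, inv_mul_cancel₀ hq0.ne',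
        ENNReal.rpow_one]
      congr 2
      field_simp

theorem young {k : Cm m → ℂ} (hk : Integrable k) {G : Cm m × ℝ → ℂ} (hG : Measurable G) {q : ℝ} (hq : 1 < q) :
    ∫⁻ y : Cm m × ℝ, ‖∫ w, k w * G (y.1 + w, y.2)‖ₑ ^ q ≤ (∫⁻ w, ‖k w‖ₑ) ^ q * ∫⁻ y, ‖G y‖ₑ ^ q := by
  have hku : AEMeasurable (fun w => ‖k w‖ₑ) (volume : Measure (Cm m)) := hk.aestronglyMeasurable.enorm
  have h1 : ∀ y : Cm m × ℝ, ‖∫ w, k w * G (y.1 + w, y.2)‖ₑ ^ q ≤
      (∫⁻ w, ‖k w‖ₑ) ^ (q - 1) * ∫⁻ w, ‖k w‖ₑ * ‖G (y.1 + w, y.2)‖ₑ ^ q := by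
    intro y
    have h2 : ‖∫ w, k w * G (y.1 + w, y.2)‖ₑ ≤ ∫⁻ w, ‖k w‖ₑ * ‖G (y.1 + w, y.2)‖ₑ := by
      refine (enorm_integral_le_lintegral_enorm _).trans (le_of_eq ?_)
      refine lintegral_congr fun w => ?_
      rw [enorm_mul]
    have hv : Measurable fun w : Cm m => ‖G (y.1 + w, y.2)‖ₑ :=
      (hG.comp ((measurable_const_add y.1).prodMk measurable_const)).enorm
    calc _ ≤ (∫⁻ w, ‖k w‖ₑ * ‖G (y.1 + w, y.2)‖ₑ) ^ q := by gcongr
      _ ≤ _ := jensen hku hv.aemeasurable hq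
  have h3 : ∫⁻ y : Cm m × ℝ, (∫⁻ w, ‖k w‖ₑ * ‖G (y.1 + w, y.2)‖ₑ ^ q) = (∫⁻ w, ‖k w‖ₑ) * ∫⁻ y, ‖G y‖ₑ ^ q := by
    have hGq : Measurable fun y : Cm m × ℝ => ‖G y‖ₑ ^ q := hG.enorm.pow_const q
    rw [lintegral_lintegral_swap]
    · have h4 : ∀ w : Cm m, ∫⁻ y : Cm m × ℝ, ‖k w‖ₑ * ‖G (y.1 + w, y.2)‖ₑ ^ q = ‖k w‖ₑ * ∫⁻ y, ‖G y‖ₑ ^ q := by
        intro w
        have h5 : Measurable fun y : Cm m × ℝ => ‖G (y.1 + w, y.2)‖ₑ ^ q :=
          hGq.comp ((measurable_fst.add_const w).prodMk measurable_snd)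
        rw [lintegral_const_mul _ h5]
        congr 1
        have inst : (volume : Measure (Cm m × ℝ)).IsAddRightInvariant := by
          have i1 : ((volume : Measure (Cm m)).prod (volume : Measure ℝ)).IsAddLeftInvariant := inferInstance
          rw [Measure.volume_eq_prod]
          infer_instance
        have h6 := lintegral_add_right_eq_self (μ := (volume : Measure (Cm m × ℝ))) (fun y => ‖G y‖ₑ ^ q) ((w, 0) : Cm m × ℝ)
        rw [← h6]
        refine lintegral_congr fun y => ?_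
        congr 3
        ext
        · rfl
        · simp
      simp_rw [h4]
      rw [lintegral_mul_const'' _ hku]
    · have h5 : Measurable fun p : (Cm m × ℝ) × Cm m => ‖G (p.1.1 + p.2, p.1.2)‖ₑ ^ q :=
        hGq.comp (((measurable_fst.comp measurable_fst).add measurable_snd).prodMk (measurable_snd.comp measurable_fst))
      exact hku.comp_snd.mul h5.aemeasurable
  calc _ ≤ ∫⁻ y : Cm m × ℝ, (∫⁻ w, ‖k w‖ₑ) ^ (q - 1) * ∫⁻ w, ‖k w‖ₑ * ‖G (y.1 + w, y.2)‖ₑ ^ q := lintegral_mono h1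
    _ = (∫⁻ w, ‖k w‖ₑ) ^ (q - 1) * ((∫⁻ w, ‖k w‖ₑ) * ∫⁻ y, ‖G y‖ₑ ^ q) := by
      rw [lintegral_const_mul', h3]
      exact ENNReal.rpow_ne_top_of_nonneg (by linarith) hk.2.ne
    _ = _ := by
      rw [← mul_assoc]
      congr 1
      conv_lhs => rw [← ENNReal.rpow_one (∫⁻ w, ‖k w‖ₑ)]
      rw [← ENNReal.rpow_mul, one_mul, ← ENNReal.rpow_add_of_nonneg _ _ (by linarith) zero_le_one, sub_add_cancel]

lemma gauss_int {l : ℝ} (hl : 0 < l) : Integrable fun z : Cm m => Real.exp (-(l * nsq z)) := by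
  have hc : Continuous fun z : Cm m => Real.exp (-(l * nsq z)) := by
    refine Real.continuous_exp.comp ?_
    have := nsq_cont (m := m)
    fun_prop
  refine ⟨hc.aestronglyMeasurable, ?_⟩
  have h1 : ∫⁻ z : Cm m, ‖Real.exp (-(l * nsq z))‖ₑ = ∫⁻ z : Cm m, ENNReal.ofReal (Real.exp (-(l * nsq z))) := by
    refine lintegral_congr fun z => ?_
    rw [← ofReal_norm, Real.norm_of_nonneg (Real.exp_pos _).le]
  show ∫⁻ z : Cm m, ‖Real.exp (-(l * nsq z))‖ₑ < ⊤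
  rw [h1, gaussR hl]
  exact ENNReal.ofReal_lt_top

lemma fock_le {a : ℝ} {κ : ℂ} (hκ : κ.re = a + 1) {F : Cm m → ℂ} (hb : ∀ z, ‖F z‖ ≤ Real.exp (a * nsq z)) (z : Cm m) :
    ‖fock κ F z‖ ≤ Real.exp (-(1 * nsq z)) := by
  rw [fock_norm, hκ]
  calc ‖F z‖ * Real.exp (-((a + 1) * nsq z)) ≤ Real.exp (a * nsq z) * Real.exp (-((a + 1) * nsq z)) := by
        gcongr
        exact hb z
    _ = _ := by
      rw [← Real.exp_add]
      congr 1
      ring

lemma fock_int {a : ℝ} {κ : ℂ} (hκ : κ.re = a + 1) {F : Cm m → ℂ} (hF : Differentiable ℂ F)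
    (hb : ∀ z, ‖F z‖ ≤ Real.exp (a * nsq z)) : Integrable (fock κ F) :=
  (gauss_int one_pos).mono' (fock_cont hF).aestronglyMeasurable (Eventually.of_forall fun z => fock_le hκ hb z)

theorem trunc {a : ℝ} (ha : 0 ≤ a) {κ : ℂ} (hκ : κ.re = a + 1) {F : Cm m → ℂ} (hF : Differentiable ℂ F)
    (hb : ∀ z, ‖F z‖ ≤ Real.exp (a * nsq z)) {k : Cm m → ℂ} (hk : Integrable k) {q : ℝ} (hq : 1 < q) (hr : 1 < m * (q - 2)) :
    ∫⁻ y : Cm m × ℝ, ‖ext (fun z => ft1 k z * fock κ F z) y‖ₑ ^ q ≤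
      (∫⁻ w, ‖k w‖ₑ) ^ q * ENNReal.ofReal (((a + 1) / Real.pi) ^ (1 - m * (q - 2)) / 2 * KK (m * (q - 2)) * (Real.pi / q) ^ m) := by
  have hκ0 : 0 < κ.re := by rw [hκ]; linarith
  have hi := fock_int hκ hF hb
  have hpi := Real.pi_pos
  have hq0 : 0 < q := by linarith
  have hKK := KK_nonneg (m * (q - 2))
  simp_rw [ext_mul hk hi]
  have hmeas : Measurable (ext (fock κ F)) := by
    have hc : Continuous (Function.uncurry fun (y : Cm m × ℝ) (z : Cm m) => cexp (2 * Real.pi * I * (ip z y.1 + y.2 * nsq z))) := by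
      have h1 : Continuous fun p : (Cm m × ℝ) × Cm m => ip p.2 p.1.1 :=
        ip_cont.comp (continuous_snd.prodMk (continuous_fst.comp continuous_fst))
      have h2 : Continuous fun p : (Cm m × ℝ) × Cm m => nsq p.2 := nsq_cont.comp continuous_snd
      exact Complex.continuous_exp.comp (by fun_prop)
    have hc2 : Continuous (Function.uncurry fun (y : Cm m × ℝ) (z : Cm m) =>
        fock κ F z * cexp (2 * Real.pi * I * (ip z y.1 + y.2 * nsq z))) :=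
      ((fock_cont hF).comp continuous_snd).mul hc
    exact (hc2.stronglyMeasurable.integral_prod_right (ν := (volume : Measure (Cm m)))).measurable
  refine (young hk hmeas hq).trans ?_
  gcongr
  have e1 : ENNReal.ofReal (((a + 1) / Real.pi) ^ (1 - m * (q - 2)) / 2 * KK (m * (q - 2)) * (Real.pi / q) ^ m) =
      ENNReal.ofReal (((a + 1) / Real.pi) ^ (1 - m * (q - 2)) / 2 * KK (m * (q - 2))) * ENNReal.ofReal ((Real.pi / q) ^ m) :=
    ENNReal.ofReal_mul (by positivity)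
  rw [ext_lint hκ0 hF hi hq0.le, t_lint hκ0 hr, hκ, e1]
  gcongr
  rw [← gaussR hq0]
  refine lintegral_mono fun z => ?_
  rw [← ofReal_norm, ENNReal.ofReal_rpow_of_nonneg (norm_nonneg _) hq0.le]
  refine ENNReal.ofReal_le_ofReal ?_
  calc ‖fock κ F z‖ ^ q ≤ Real.exp (-(1 * nsq z)) ^ q := by
        gcongr
        exact fock_le hκ hb z
    _ = _ := by
      rw [← Real.exp_mul]
      congr 1
      ring

end Pool.Agent.H474.FK
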