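import Pool.Agent.H474.FK.Tr

set_option autoImplicit false

/-! # Weighted integrals: lines -/

namespace Pool.Agent.H474.FK

open MeasureTheory Filter Topology Set Complex
open scoped ComplexConjugate ENNReal

variable {m : ℕ}

theorem ext_weight {κ : ℂ} (hκ : 0 < κ.re) {F : Cm m → ℂ} (hF : Differentiable ℂ F) (hi : Integrable (fock κ F))
    {q : ℝ} (hq : 0 ≤ q) {w : Cm m × ℝ → ℝ≥0∞} (hw : Measurable w) :
    ∫⁻ y : Cm m × ℝ, ‖ext (fock κ F) y‖ₑ ^ q * w y =
      ∫⁻ v, ‖fock κ F v‖ₑ ^ q * ∫⁻ t : ℝ, ENNReal.ofReal (‖bb κ t‖ ^ (-(m * (q - 2)))) * w ((bb κ t / I) • v, t) := by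
  have hfc := fock_cont (κ := κ) hF
  have e1 : ∀ y : Cm m × ℝ, ‖ext (fock κ F) y‖ₑ ^ q * w y =
      ENNReal.ofReal ((‖bb κ y.2‖⁻¹) ^ (m * q)) * (‖fock κ F ((I / bb κ y.2) • y.1)‖ₑ ^ q * w y) := by
    intro y
    have h0 := bb_npos hκ y.2
    rw [← ofReal_norm, ext_fock hκ hF hi y, ENNReal.ofReal_mul (by positivity), ENNReal.mul_rpow_of_nonneg _ _ hq,
      ofReal_norm, ENNReal.ofReal_rpow_of_nonneg (by positivity) hq, mul_assoc]
    congr 2
    rw [← Real.rpow_natCast, ← Real.rpow_mul (by positivity)]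
  simp_rw [e1]
  have hm1 : Continuous fun y : Cm m × ℝ => (‖bb κ y.2‖⁻¹) ^ (m * q) := by
    refine Continuous.rpow_const ?_ fun y => Or.inl (inv_pos.2 (bb_npos hκ y.2)).ne'
    exact ((bb_cont κ).comp continuous_snd).norm.inv₀ fun y => (bb_npos hκ y.2).ne'
  have hm2 : Measurable fun y : Cm m × ℝ => ‖fock κ F ((I / bb κ y.2) • y.1)‖ₑ ^ q :=
    (hfc.comp (arg_cont hκ)).measurable.enorm.pow_const q
  have hm3 : Measurable fun y : Cm m × ℝ =>
      ENNReal.ofReal ((‖bb κ y.2‖⁻¹) ^ (m * q)) * (‖fock κ F ((I / bb κ y.2) • y.1)‖ₑ ^ q * w y) :=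
    hm1.measurable.ennreal_ofReal.mul (hm2.mul hw)
  rw [Measure.volume_eq_prod, lintegral_prod_symm _ hm3.aemeasurable]
  have hl1 : ∀ t : ℝ, Measurable fun v : Cm m => w ((bb κ t / I) • v, t) := by
    intro t
    have h1 : Continuous fun v : Cm m => ((bb κ t / I) • v, t) := (continuous_const_smul _).prodMk continuous_const
    exact hw.comp h1.measurable
  have hl2 : ∀ v : Cm m, Measurable fun t : ℝ => w ((bb κ t / I) • v, t) := by
    intro v
    have h0 : Continuous fun t : ℝ => bb κ t / I := (bb_cont κ).div_const I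
    have h1 : Continuous fun t : ℝ => ((bb κ t / I) • v, t) := (h0.smul continuous_const).prodMk continuous_id
    exact hw.comp h1.measurable
  have hl3 : Measurable fun p : ℝ × Cm m => w ((bb κ p.1 / I) • p.2, p.1) := by
    have h0 : Continuous fun p : ℝ × Cm m => bb κ p.1 / I := ((bb_cont κ).comp continuous_fst).div_const I
    have h1 : Continuous fun p : ℝ × Cm m => ((bb κ p.1 / I) • p.2, p.1) := (h0.smul continuous_snd).prodMk continuous_fst
    exact hw.comp h1.measurable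
  have e2 : ∀ t : ℝ, ∫⁻ x : Cm m, ENNReal.ofReal ((‖bb κ t‖⁻¹) ^ (m * q)) * (‖fock κ F ((I / bb κ t) • x)‖ₑ ^ q * w (x, t)) =
      ∫⁻ v, ‖fock κ F v‖ₑ ^ q * (ENNReal.ofReal (‖bb κ t‖ ^ (-(m * (q - 2)))) * w ((bb κ t / I) • v, t)) := by
    intro t
    have h0 := bb_npos hκ t
    have hb0 : bb κ t ≠ 0 := norm_pos_iff.1 h0
    have hne : I / bb κ t ≠ 0 := div_ne_zero Complex.I_ne_zero hb0
    rw [lintegral_const_mul' _ _ ENNReal.ofReal_ne_top]
    have hg : Measurable fun v : Cm m => ‖fock κ F v‖ₑ ^ q * w ((bb κ t / I) • v, t) :=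
      (hfc.measurable.enorm.pow_const q).mul (hl1 t)
    have h1 := lint_csmul hne hg
    have h2 : ∀ x : Cm m, (bb κ t / I) • (I / bb κ t) • x = x := by
      intro x
      rw [smul_smul]
      have : bb κ t / I * (I / bb κ t) = 1 := by
        have := Complex.I_ne_zero
        field_simp
      rw [this, one_smul]
    simp_rw [h2] at h1
    rw [h1, ← mul_assoc, ← ENNReal.ofReal_mul (by positivity), ← lintegral_const_mul' _ _ ENNReal.ofReal_ne_top]
    refine lintegral_congr fun v => ?_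
    rw [mul_left_comm]
    congr 3
    rw [norm_div, Complex.norm_I, one_div, inv_inv, Real.inv_rpow h0.le, ← Real.rpow_neg h0.le, ← Real.rpow_natCast,
      ← Real.rpow_add h0]
    congr 1
    push_cast
    ring
  simp only
  simp_rw [e2]
  have hmt : Measurable fun t : ℝ => ENNReal.ofReal (‖bb κ t‖ ^ (-(m * (q - 2)))) := by
    refine Measurable.ennreal_ofReal ?_
    refine Continuous.measurable ?_
    exact (bb_cont κ).norm.rpow_const fun t => Or.inl (bb_npos hκ t).ne'
  rw [lintegral_lintegral_swap]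
  · refine lintegral_congr fun v => ?_
    rw [lintegral_const_mul]
    exact hmt.mul (hl2 v)
  · have h3 : Measurable fun p : ℝ × Cm m => ‖fock κ F p.2‖ₑ ^ q := (hfc.measurable.comp measurable_snd).enorm.pow_const q
    have h4 : Measurable fun p : ℝ × Cm m => ENNReal.ofReal (‖bb κ p.1‖ ^ (-(m * (q - 2)))) := hmt.comp measurable_fst
    exact (h3.mul (h4.mul hl3)).aemeasurable

end Pool.Agent.H474.FK
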